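import Mathlib
import Pool.Agent.R591.SPL.Forced

set_option autoImplicit false

/-!
# MP_ec3397_lc, Q1: `(∗)` does not imply CH

`(∗)` says that in every normal space, a closed discrete set of size `ℵ₁` is separated whenever at
most `2 ^ ℵ₀` neighbourhood assignments witness its normality.

The first part says that a combinatorial principle is forced by a notion of forcing `P`, which
exists outright: `P` is the product of the forcing which adds many Cohen reals (finite conditions)
and the forcing which adds many Cohen subsets of `ω₁` (countable conditions). See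
`Pool.Agent.R591.SPL.Defs` for the principle (`Principle` is the statement about actual objects,
`ForcedPrinciple` the same statement in the forcing language), and `Pool.Agent.Helper669.Forcing`
for the forcing language.

The second part is a theorem about actual objects: whenever the principle holds for a well-ordered
set `W` of order type `ω₁`, CH fails and `(∗)` holds. So it is consistent with ZFC that CH fails
and `(∗)` holds: `(∗)` does not imply CH.
-/

universe u

namespace Pool.Agent.Results.MP_ec3397_lc.NotCH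

open Set Cardinal Pool.Agent.Helper669.Forcing Pool.Agent.R591.SPL

/-- `f` is a neighbourhood assignment for `Y`. -/
def IsAssignment {X : Type u} [TopologicalSpace X] (Y : Set X) (f : Y → Set X) : Prop :=
  ∀ y : Y, IsOpen (f y) ∧ f y ∩ Y = {y.1}

/-- `f` witnesses the normality of `Z ⊆ Y`. -/
def Witnesses {X : Type u} {Y : Set X} (f : Y → Set X) (Z : Set Y) : Prop :=
  (⋃ y ∈ Z, f y) ∩ (⋃ y ∈ Zᶜ, f y) = ∅

/-- `Y` is separated. -/
def Separated {X : Type u} [TopologicalSpace X] (Y : Set X) : Prop :=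
  ∃ U : Y → Set X, (∀ y : Y, IsOpen (U y) ∧ y.1 ∈ U y) ∧ ∀ y y' : Y, y ≠ y' → U y ∩ U y' = ∅

/-- The assertion `(∗)`: for every normal space `X` and every closed discrete `Y ⊆ X` with
`|Y| = ℵ₁`, if some family `F` of at most `2 ^ ℵ₀` neighbourhood assignments witnesses the
normality of `Y`, then `Y` is separated. -/
def Star : Prop :=
  ∀ (X : Type u) [TopologicalSpace X], NormalSpace X → ∀ Y : Set X, IsClosed Y →
    DiscreteTopology Y → #Y = ℵ₁ →
    (∃ F : Set (Y → Set X), #F ≤ 𝔠 ∧ (∀ f ∈ F, IsAssignment Y f) ∧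
      ∀ Z : Set Y, ∃ f ∈ F, Witnesses f Z) →
    Separated Y

theorem card_W {W : Type} [LinearOrder W] [WellFoundedLT W] (hW : ∀ δ : W, (Iio δ).Countable)
    {N : Type} {e : N → Set ℕ} (h : Principle W N e) : #W = ℵ₁ := by
  have hne : Nonempty W := by
    by_contra hne
    rw [not_nonempty_iff] at hne
    obtain ⟨ν, _⟩ := h.onto ∅
    obtain ⟨Z, hZ⟩ := h.split (fun _ _ _ => True) (fun _ δ => (hne.false δ).elim)
    obtain ⟨α, _⟩ := hZ ν
    exact hne.false α
  apply le_antisymm
  · refine le_of_not_gt fun hlt => ?_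
    have h1 : #{a : W | #(Iio a) < ℵ₁} ≤ ℵ₁ := by
      let f : {a : W | #(Iio a) < ℵ₁} → Iio (ℵ₁ : Cardinal.{0}).ord := fun a =>
        ⟨Ordinal.typein (α := W) (· < ·) a.1, by
          rw [mem_Iio, Cardinal.lt_ord]
          exact a.2⟩
      have hf : Function.Injective f := by
        intro a b hab
        have : Ordinal.typein (α := W) (· < ·) a.1 = Ordinal.typein (α := W) (· < ·) b.1 :=
          congrArg Subtype.val hab
        exact Subtype.ext (Ordinal.typein_injective _ this)
      have h1 := Cardinal.lift_mk_le_lift_mk_of_injective hf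
      rw [Cardinal.mk_Iio_ordinal, Cardinal.card_ord] at h1
      rw [Cardinal.lift_lift] at h1
      exact Cardinal.lift_le.1 h1
    have h2 : {a : W | #(Iio a) < ℵ₁} = Set.univ := by
      ext a
      simp only [mem_ofPred_eq, mem_univ, iff_true]
      exact ((hW a).le_aleph0).trans_lt aleph0_lt_aleph_one
    rw [h2, mk_univ] at h1
    exact absurd hlt (not_lt.2 h1)
  · rw [← succ_aleph0]
    apply Order.succ_le_of_lt
    by_contra hcon
    rw [not_lt, Cardinal.mk_le_aleph0_iff] at hcon
    obtain ⟨f, hf⟩ := exists_surjective_nat W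
    exact h.unc f hf

theorem not_CH {W : Type} [LinearOrder W] [WellFoundedLT W] (hW : ∀ δ : W, (Iio δ).Countable)
    {N : Type} {e : N → Set ℕ} (h : Principle W N e) : (ℵ₁ : Cardinal.{0}) < 𝔠 := by
  by_contra hcon
  rw [not_lt, ← card_W hW h, ← Cardinal.two_power_aleph0, ← Cardinal.mk_nat, ← Cardinal.mk_set]
    at hcon
  obtain ⟨g⟩ := (Cardinal.le_def _ _).1 hcon
  exact h.notCH (Function.invFun g) (Function.invFun_surjective g.injective)

theorem star_of_principle {W : Type} [LinearOrder W] [WellFoundedLT W]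
    (hW : ∀ δ : W, (Iio δ).Countable)
    {N : Type} {e : N → Set ℕ} (h : Principle W N e) : Star.{u} := by
  classical
  intro X _ _ Y _ _ hY ⟨F, hF, hFa, hFw⟩
  by_contra hsep
  -- enumerations
  obtain ⟨φ⟩ : Nonempty (W ≃ Y) := by
    rw [← Cardinal.lift_mk_eq', card_W hW h, hY]
    simp
  have hFne : F.Nonempty := by
    obtain ⟨f, hf, _⟩ := hFw ∅
    exact ⟨f, hf⟩
  obtain ⟨j, hj⟩ : ∃ j : N → F, Function.Surjective j := by
    have h1 : Cardinal.lift.{0} #F ≤ Cardinal.lift.{u} #(Set ℕ) := by
      rw [Cardinal.mk_set, Cardinal.mk_nat, Cardinal.two_power_aleph0]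
      simpa using hF
    obtain ⟨g⟩ := Cardinal.lift_mk_le'.1 h1
    have : Nonempty F := hFne.to_subtype
    exact ⟨fun ν => Function.invFun g (e ν), (Function.invFun_surjective g.injective).comp h.onto⟩
  let f : N → Y → Set X := fun ν => (j ν).1
  have hopen : ∀ ν y, IsOpen (f ν y) := fun ν y => (hFa _ (j ν).2 y).1
  have hmem : ∀ ν (y : Y), y.1 ∈ f ν y := by
    intro ν y
    have h1 := (hFa _ (j ν).2 y).2
    have h2 : y.1 ∈ f ν y ∩ Y := by
      show y.1 ∈ (j ν).1 y ∩ Y
      rw [h1]; exact rfl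
    exact h2.1
  have hwit : ∀ Z : Set Y, ∃ ν, Witnesses (f ν) Z := by
    intro Z
    obtain ⟨g, hg, hgZ⟩ := hFw Z
    obtain ⟨ν, hν⟩ := hj ⟨g, hg⟩
    refine ⟨ν, ?_⟩
    show Witnesses ((j ν).1) Z
    rw [hν]; exact hgZ
  have hdis : ∀ {ν : N} {Z : Set Y}, Witnesses (f ν) Z → ∀ y ∈ Z, ∀ y' ∉ Z,
      f ν y ∩ f ν y' = ∅ := by
    intro ν Z hZ y hy y' hy'
    rw [eq_empty_iff_forall_notMem]
    rintro x ⟨hx, hx'⟩
    have : x ∈ (⋃ y ∈ Z, f ν y) ∩ (⋃ y ∈ Zᶜ, f ν y) :=
      ⟨mem_iUnion₂.2 ⟨y, hy, hx⟩, mem_iUnion₂.2 ⟨y', hy', hx'⟩⟩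
    rw [hZ] at this
    exact this
  -- the relations are unbounded
  have hunb : ∀ ν δ, ∃ α β, (δ < α ∧ α < β) ∧ (f ν (φ α) ∩ f ν (φ β)).Nonempty := by
    intro ν δ
    by_contra hcon
    push Not at hcon
    apply hsep
    -- witnesses
    obtain ⟨νs, hνs⟩ := hwit (φ '' Iic δ)
    choose g hg using fun α : W => hwit {φ α}
    have hcount : (Iic δ).Countable := by
      have : (Iic δ : Set W) = insert δ (Iio δ) := by
        ext y; simp [le_iff_lt_or_eq, or_comm]
      rw [this]
      exact (hW δ).insert δ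
    obtain ⟨κ, hκ⟩ := Set.countable_iff_exists_injOn.1 hcount
    let V : W → Set X := fun α =>
      if α ≤ δ then f νs (φ α) ∩ (f (g α) (φ α) ∩
          ⋂ α' ∈ {α' : W | α' ≤ δ ∧ κ α' < κ α}, f (g α') (φ α))
      else f νs (φ α) ∩ f ν (φ α)
    have hVopen : ∀ α, IsOpen (V α) := by
      intro α
      by_cases hα : α ≤ δ
      · simp only [V, hα, if_true]
        refine (hopen _ _).inter ((hopen _ _).inter ?_)
        refine Set.Finite.isOpen_biInter ?_ (fun α' _ => hopen _ _)
        refine Set.Finite.of_finite_image (f := κ) ((Set.finite_Iio (κ α)).subset ?_) ?_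
        · rintro _ ⟨α', hα', rfl⟩
          exact hα'.2
        · intro a ha b hb hab
          exact hκ ha.1 hb.1 hab
      · simp only [V, hα, if_false]
        exact (hopen _ _).inter (hopen _ _)
    have hVmem : ∀ α, (φ α).1 ∈ V α := by
      intro α
      by_cases hα : α ≤ δ
      · simp only [V, hα, if_true]
        refine ⟨hmem _ _, hmem _ _, ?_⟩
        exact mem_iInter₂.2 (fun α' _ => hmem _ _)
      · simp only [V, hα, if_false]
        exact ⟨hmem _ _, hmem _ _⟩
    have hV0 : ∀ α β, β ≤ δ → α ≤ δ → κ β < κ α → V α ∩ V β = ∅ := by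
      intro α β hβ hα hlt
      have hne : φ α ≠ φ β := by
        intro hcon
        rw [φ.injective hcon] at hlt
        exact lt_irrefl _ hlt
      have h1 : V α ⊆ f (g β) (φ α) := by
        simp only [V, hα, if_true]
        rintro x ⟨_, _, hx⟩
        exact mem_iInter₂.1 hx β ⟨hβ, hlt⟩
      have h2 : V β ⊆ f (g β) (φ β) := by
        simp only [V, hβ, if_true]
        rintro x ⟨_, hx, _⟩
        exact hx
      have h3 := hdis (hg β) (φ β) rfl (φ α) (by simpa using hne)
      rw [eq_empty_iff_forall_notMem] at h3 ⊢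
      rintro x ⟨hx, hx'⟩
      exact h3 x ⟨h2 hx', h1 hx⟩
    have hV1 : ∀ α β, α ≤ δ → δ < β → V α ∩ V β = ∅ := by
      intro α β hα hβ
      have h1 : V α ⊆ f νs (φ α) := by
        simp only [V, hα, if_true]
        rintro x ⟨hx, _⟩
        exact hx
      have h2 : V β ⊆ f νs (φ β) := by
        simp only [V, not_le.2 hβ, if_false]
        rintro x ⟨hx, _⟩
        exact hx
      have h3 := hdis hνs (φ α) ⟨α, hα, rfl⟩ (φ β) (by
        rintro ⟨γ, hγ, hγ2⟩
        rw [φ.injective hγ2] at hγ
        exact absurd hβ (not_lt.2 hγ))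
      rw [eq_empty_iff_forall_notMem] at h3 ⊢
      rintro x ⟨hx, hx'⟩
      exact h3 x ⟨h1 hx, h2 hx'⟩
    have hV2 : ∀ α β, δ < α → α < β → V α ∩ V β = ∅ := by
      intro α β hα hβ
      have h1 : V α ⊆ f ν (φ α) := by
        simp only [V, not_le.2 hα, if_false]
        rintro x ⟨_, hx⟩
        exact hx
      have h2 : V β ⊆ f ν (φ β) := by
        simp only [V, not_le.2 (hα.trans hβ), if_false]
        rintro x ⟨_, hx⟩
        exact hx
      have h3 := hcon α β ⟨hα, hβ⟩
      rw [eq_empty_iff_forall_notMem] at h3 ⊢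
      rintro x ⟨hx, hx'⟩
      exact h3 x ⟨h1 hx, h2 hx'⟩
    have hVall : ∀ α β, α < β → V α ∩ V β = ∅ := by
      intro α β hαβ
      rcases le_or_gt β δ with hβ | hβ
      · have hα : α ≤ δ := hαβ.le.trans hβ
        rcases lt_trichotomy (κ α) (κ β) with h1 | h1 | h1
        · rw [inter_comm]; exact hV0 β α hα hβ h1
        · exact absurd (hκ hα hβ h1) hαβ.ne
        · exact hV0 α β hβ hα h1
      · rcases le_or_gt α δ with hα | hα
        · exact hV1 α β hα hβ
        · exact hV2 α β hα hαβ
    refine ⟨fun y => V (φ.symm y), fun y => ⟨hVopen _, ?_⟩, ?_⟩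
    · have := hVmem (φ.symm y)
      rwa [φ.apply_symm_apply] at this
    · intro y y' hne
      have hne' : φ.symm y ≠ φ.symm y' := fun h => hne (φ.symm.injective h)
      rcases lt_or_gt_of_ne hne' with h1 | h1
      · exact hVall _ _ h1
      · rw [inter_comm]; exact hVall _ _ h1
  -- the splitting set
  obtain ⟨Z, hZ⟩ := h.split (fun ν α β => (f ν (φ α) ∩ f ν (φ β)).Nonempty) hunb
  obtain ⟨ν, hν⟩ := hwit {y | Z (φ.symm y)}
  obtain ⟨α, β, hE, hαβ⟩ := hZ ν
  by_cases hα : Z α
  · have hβ : ¬ Z β := fun hβ => hαβ ⟨fun _ => hβ, fun _ => hα⟩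
    have h3 := hdis hν (φ α) (by simpa using hα) (φ β) (by simpa using hβ)
    rw [h3] at hE
    exact Set.not_nonempty_empty hE
  · have hβ : Z β := by
      by_contra hβ
      exact hαβ ⟨fun h => absurd h hα, fun h => absurd h hβ⟩
    have h3 := hdis hν (φ β) (by simpa using hβ) (φ α) (by simpa using hα)
    rw [inter_comm, h3] at hE
    exact Set.not_nonempty_empty hE

/-- (1) There are a notion of forcing `P` (a nonempty preordered set) and a family `e` of names for
sets of natural numbers, indexed by a set `N`, such that every condition forces the principle for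
`ω₁`, `N` and `e`. (2) If the principle holds for an (infinite) well-ordered set `W` all of whose
proper initial segments are countable (so that `W` has order type `ω₁`), then CH fails and `(∗)`
holds. -/
theorem result :
    (∃ (P : Type) (_ : Preorder P) (N : Type) (e : N → ℕ → Set P), Nonempty P ∧
      ∀ p : P, p ∈ ForcedPrinciple P (ℵ₁ : Cardinal.{0}).ord.ToType N e) ∧
    (∀ (W : Type) [LinearOrder W] [WellFoundedLT W], (∀ δ : W, (Iio δ).Countable) →
      ∀ (N : Type) (e : N → Set ℕ), Principle W N e →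
        #W = ℵ₁ ∧ (ℵ₁ : Cardinal.{0}) < 𝔠 ∧ Star.{u}) :=
  ⟨exists_forcing, fun _ _ _ hW _ _ h => ⟨card_W hW h, not_CH hW h, star_of_principle hW h⟩⟩

end Pool.Agent.Results.MP_ec3397_lc.NotCH
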